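import Mathlib

/-! MP_45ad35_al: o-conjugacy is partition covering. -/

namespace Pool.Agent.Results.MP_45ad35_al.Covering

/-- o-conjugacy in a semigroup, with conjugators in the semigroup with an adjoined identity. -/
def OConj {S : Type*} [Semigroup S] (a b : S) : Prop :=
  ∃ g h : WithOne S, (a : WithOne S) * g = g * b ∧ (b : WithOne S) * h = h * a

theorem exists_addCommGroup (Q : Type*) [Nonempty Q] : Nonempty (AddCommGroup Q) := by
  cases finite_or_infinite Q with
  | inl h =>
    obtain ⟨n, ⟨e⟩⟩ := Finite.exists_equiv_fin Q
    have : NeZero n := ⟨by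
      rintro rfl
      exact (e (Classical.arbitrary Q)).elim0⟩
    exact ⟨e.addCommGroup⟩
  | inr h =>
    obtain ⟨f⟩ := Infinite.nonempty_field (α := Q)
    exact ⟨inferInstance⟩

/-- For every nonempty set and every partition of it (given as an equivalence relation) there is
a semigroup operation whose o-conjugacy classes are exactly the blocks. -/
theorem result (X : Type*) [Nonempty X] (τ : Setoid X) :
    ∃ s : Semigroup X, ∀ a b : X, @OConj X s a b ↔ τ a b := by
  have : Nonempty (Quotient τ) := ⟨Quotient.mk τ (Classical.arbitrary X)⟩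
  obtain ⟨grp⟩ := exists_addCommGroup (Quotient τ)
  let pr : X → Quotient τ := Quotient.mk τ
  let out : Quotient τ → X := Quotient.out
  have hpo : ∀ q, pr (out q) = q := fun q => Quotient.out_eq q
  let s : Semigroup X :=
    { mul := fun x y => out (pr x + pr y)
      mul_assoc := fun x y z => by
        show out (pr (out (pr x + pr y)) + pr z) = out (pr x + pr (out (pr y + pr z)))
        rw [hpo, hpo, add_assoc] }
  refine ⟨s, fun a b => ?_⟩
  have hmul : ∀ x y : X, x * y = out (pr x + pr y) := fun _ _ => rfl
  constructor
  · rintro ⟨g, h, h1, -⟩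
    apply Quotient.exact (s := τ)
    rcases eq_or_ne g 1 with rfl | hg
    · rw [mul_one, one_mul] at h1
      rw [WithOne.coe_injective h1]
    · obtain ⟨g, rfl⟩ := WithOne.ne_one_iff_exists.1 hg
      rw [← WithOne.coe_mul, ← WithOne.coe_mul] at h1
      have h2 : a * g = g * b := WithOne.coe_injective h1
      have h3 := congrArg pr h2
      rw [hmul, hmul, hpo, hpo, add_comm] at h3
      exact add_left_cancel h3
  · intro hab
    have h1 : pr a = pr b := Quotient.sound hab
    refine ⟨(a : WithOne X), (a : WithOne X), ?_, ?_⟩
    · rw [← WithOne.coe_mul, ← WithOne.coe_mul, hmul, hmul, h1]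
    · rw [← WithOne.coe_mul, ← WithOne.coe_mul, hmul, hmul, h1]

end Pool.Agent.Results.MP_45ad35_al.Covering
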